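import Mathlib
import Pool.Agent.R652.HomComp

/-!
# The homomorphism problem for submonoids of virtually free groups is decidable
-/

set_option autoImplicit false

namespace Pool.Agent.Results.MP_3ff21c_al.HomProblemDecidable

open Pool.Agent.R652.HP

universe u v w

/-- `H` is virtually free (`F` is a free subgroup of finite index), its elements are given by words
in the family `a` and inverses (`val a w` is the value of the word `w`), and `G` is a group with
generating family `b` and decidable word problem.  Then the homomorphism problem is decidable: there
is a computable function `f` such that, for every list `L` of pairs (word `x.1` for an element of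
`H`, word `x.2` for an element of `G`), `f L = true` if and only if there is a homomorphism from
the submonoid `M` generated by the elements `val a x.1` to `G` which maps each `val a x.1` to
`val b x.2`.  The algorithm is uniform in `M`. -/
theorem result {H : Type v} [Group H] (F : Subgroup H) [F.FiniteIndex] [IsFreeGroup F]
    {r : ℕ} (a : Fin r → H) {G : Type w} [Group G] {β : Type u} [Primcodable β] (b : β → G)
    (hb : ComputablePred fun w : List (β × Bool) => val b w = 1) :
    ∃ f : List (List (Fin r × Bool) × List (β × Bool)) → Bool, Computable f ∧
      ∀ (L : List (List (Fin r × Bool) × List (β × Bool))) (M : Submonoid H),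
        M = Submonoid.closure {z : H | ∃ x ∈ L, z = val a x.1} →
        (f L = true ↔ ∃ Φ : M →* G, ∀ x ∈ L, ∀ m : M, (m : H) = val a x.1 → Φ m = val b x.2) := by
  obtain ⟨C⟩ := exists_coord F a
  obtain ⟨d, hd⟩ := decidable_extends C b hb
  refine ⟨fun L => decide (Extends a b L), hd, ?_⟩
  rintro L M rfl
  rw [decide_eq_true_iff]
  constructor
  · rintro ⟨Φ, hΦ⟩
    refine ⟨Φ, fun x hx m hm => ?_⟩
    rw [← hΦ x hx]
    congr 1
    exact Subtype.ext hm
  · rintro ⟨Φ, hΦ⟩
    exact ⟨Φ, fun x hx => hΦ x hx _ rfl⟩

end Pool.Agent.Results.MP_3ff21c_al.HomProblemDecidable
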